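import Pool.Agent.H.MP_a6405b_nt.Final

/-!
MP_a6405b_nt. For EVERY pair `ξ₁, ξ₂` and every shift `γ`, for almost every `ξ₃`:
`Q * min_{q ≤ Q} ‖q ξ₁‖ ‖q ξ₂‖ ‖q ξ₃ - γ‖ → 0`, with the rate given by any `ψ` such that
`∑ 1 / (n² ψ(n))` converges (`n = log₂ Q`).
-/

set_option autoImplicit false

open MeasureTheory

namespace Pool.Agent.Results.MP_a6405b_nt.AlmostEveryFibre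

theorem result (ξ₁ ξ₂ γ : ℝ) (ψ : ℕ → ℝ) (hψ : ∀ n, 0 < ψ n)
    (hs : Summable fun n : ℕ => 1 / ((n : ℝ) ^ 2 * ψ n)) :
    ∀ᵐ ξ₃ : ℝ, ∃ Q₀ : ℕ, ∀ Q : ℕ, Q₀ ≤ Q → ∃ q : ℕ, 1 ≤ q ∧ q ≤ Q ∧
      (Q : ℝ) * (|(q : ℝ) * ξ₁ - (round ((q : ℝ) * ξ₁) : ℝ)| *
        |(q : ℝ) * ξ₂ - (round ((q : ℝ) * ξ₂) : ℝ)| *
        |(q : ℝ) * ξ₃ - γ - (round ((q : ℝ) * ξ₃ - γ) : ℝ)|) ≤ ψ (Nat.log 2 Q) :=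
  Pool.Agent.H.MP_a6405b_nt.main ξ₁ ξ₂ γ ψ hψ hs

end Pool.Agent.Results.MP_a6405b_nt.AlmostEveryFibre
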