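import Pool.Agent.H.MP_a6405b_nt.hc.Final
import Pool.Agent.H.MP_a6405b_nt.hc.Const

set_option autoImplicit false

namespace Pool.Agent.Results.MP_a6405b_nt.HolderSets

open Filter
open scoped NNReal ENNReal

theorem result : ∃ κ : ℝ, 0 < κ ∧ ∀ (n : ℕ) (θ C : ℝ≥0), 1 / 2 < θ → θ ≤ 1 →
    ∀ (Ω : Set (Fin (n + 1) → ℝ)) (φ₁ φ₂ : (Fin (n + 1) → ℝ) → ℝ),
      HolderOnWith C θ φ₁ Ω → HolderOnWith C θ φ₂ Ω →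
      ∀ c : ℝ, 0 < c → c ≤ 1 →
        dimH {x | x ∈ Ω ∧ ∃ᶠ Q : ℕ in atTop, ∀ q : ℕ, 1 ≤ q → q ≤ Q →
          c ≤ (Q : ℝ) * (|(q : ℝ) * φ₁ x - (round ((q : ℝ) * φ₁ x) : ℝ)| *
            |(q : ℝ) * φ₂ x - (round ((q : ℝ) * φ₂ x) : ℝ)| *
            |(q : ℝ) * x 0 - (round ((q : ℝ) * x 0) : ℝ)|)} ≤
        ENNReal.ofReal ((n : ℝ) + 1 - (2 * (θ : ℝ) - 1) * (κ * c ^ 6) ^ (n + 1)) := by
  obtain ⟨κ, hκ, h⟩ := Pool.A6405.HC.constants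
  refine ⟨κ, hκ, fun n θ C hθ hθ1 Ω φ₁ φ₂ h₁ h₂ c hc hc1 => ?_⟩
  obtain ⟨γ, R, b, hγ, hγ1, hγc, hR, hb, hm⟩ := h c hc hc1
  refine le_trans (Pool.A6405.HC.dim_all θ C hθ hθ1 Ω φ₁ φ₂ h₁ h₂ c γ hγ hγ1 hγc R hR b hb) ?_
  have hθ' : (1 : ℝ) / 2 < (θ : ℝ) := by
    have := NNReal.coe_lt_coe.mpr hθ
    simpa using this
  exact ENNReal.ofReal_le_ofReal
    (by linarith [hm (n + 1) θ (Nat.succ_le_succ (Nat.zero_le n)) hθ' (by exact_mod_cast hθ1)])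

end Pool.Agent.Results.MP_a6405b_nt.HolderSets
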