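import Pool.Agent.H.MP_a6405b_nt.helper54.Final2

/-!
MP_a6405b_nt. The uniform three-variable constant is bounded below up to one logarithm: for `ξ` in a residual set
`limsup Q log Q loglog Q Δ_ξ(Q) > 0`, and every nonempty open set contains good points for every large `Q`.
-/

set_option autoImplicit false

open Filter

namespace Pool.Agent.Results.MP_a6405b_nt.LogLoss

theorem result : ∃ c : ℝ, 0 < c ∧
    (∀ U : Set (ℝ × ℝ × ℝ), IsOpen U → U.Nonempty → ∀ᶠ Q : ℕ in atTop, ∃ ξ ∈ U,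
      ∀ q : ℕ, 1 ≤ q → q ≤ Q →
        c ≤ (Q : ℝ) * Real.log Q * Real.log (Real.log Q) *
          (|(q : ℝ) * ξ.1 - round ((q : ℝ) * ξ.1)| * |(q : ℝ) * ξ.2.1 - round ((q : ℝ) * ξ.2.1)| *
            |(q : ℝ) * ξ.2.2 - round ((q : ℝ) * ξ.2.2)|)) ∧
    (∀ᶠ ξ : ℝ × ℝ × ℝ in residual (ℝ × ℝ × ℝ), ∃ᶠ Q : ℕ in atTop,
      ∀ q : ℕ, 1 ≤ q → q ≤ Q →
        c ≤ (Q : ℝ) * Real.log Q * Real.log (Real.log Q) *
          (|(q : ℝ) * ξ.1 - round ((q : ℝ) * ξ.1)| * |(q : ℝ) * ξ.2.1 - round ((q : ℝ) * ξ.2.1)| *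
            |(q : ℝ) * ξ.2.2 - round ((q : ℝ) * ξ.2.2)|)) :=
  Pool.A6405.LL.main2

end Pool.Agent.Results.MP_a6405b_nt.LogLoss
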