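import Pool.Agent.H.MP_a6405b_nt.helper62.Baire

/-!
MP_a6405b_nt. For a comeagre set of triples: for every `η > 0` and infinitely many `Q`, every
`1 ≤ q ≤ Q` has `Q * ∏ max (‖q ξ_i‖, Q ^ (-1/2 + η) * max_j ‖q ξ_j‖) ≥ 1 / 1000`.
-/

set_option autoImplicit false

open Filter

namespace Pool.Agent.Results.MP_a6405b_nt.TruncatedProduct

theorem result : ∀ᶠ ξ : Fin 3 → ℝ in residual (Fin 3 → ℝ), ∀ η : ℝ, 0 < η →
    ∃ᶠ Q : ℕ in atTop, ∀ q : ℕ, 1 ≤ q → q ≤ Q →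
      (1 : ℝ) / 1000 ≤ (Q : ℝ) * ∏ i : Fin 3,
        max |(q : ℝ) * ξ i - (round ((q : ℝ) * ξ i) : ℝ)|
          ((Q : ℝ) ^ (-(1 / 2 : ℝ) + η) *
            ‖fun j : Fin 3 => (q : ℝ) * ξ j - (round ((q : ℝ) * ξ j) : ℝ)‖) :=
  Pool.A6405.HX.residual_good

end Pool.Agent.Results.MP_a6405b_nt.TruncatedProduct
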